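import Pool.Agent.BTK.KPot
import Pool.Agent.BT.KBd

/-!
# Pentagon complexes: minimal counterexamples, bounded kernels (definitions)
-/

namespace Pool.Agent.BT

open MulAction
open Pool.Agent.SAF (InC orbs FinOrb oc Decomp SAn SA)

def KMinA (M n : ℕ) : Prop := ∀ (H : Type) [Group H] (V : Type) [MulAction H V] (K : PX H V),
  KBd M H → ¬ SA H → n ≤ K.A

def KMinV (M n v : ℕ) : Prop := KMinA M n ∧
  ∀ (H : Type) [Group H] (V : Type) [MulAction H V] (K : PX H V),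
  KBd M H → ¬ SA H → K.A = n → K.Vf ≤ v

def KMinB (M M' n v : ℕ) (b : ℚ) : Prop := KMinV M n v ∧
  ∀ (H : Type) [Group H] (V : Type) [MulAction H V] (K : PX H V),
  KBd M H → ¬ SA H → K.A = n → K.Vf = v → K.SB M' → b ≤ K.hg.bb

def KMinE (M M' n v : ℕ) (b e : ℚ) : Prop := KMinB M M' n v b ∧
  ∀ (H : Type) [Group H] (V : Type) [MulAction H V] (K : PX H V),
  KBd M H → ¬ SA H → K.A = n → K.Vf = v → K.SB M' → K.hg.bb = b → K.Ew ≤ e

def KMinS (M M' n v : ℕ) (b e : ℚ) (s : ℕ) : Prop := KMinE M M' n v b e ∧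
  ∀ (H : Type) [Group H] (V : Type) [MulAction H V] (K : PX H V),
  KBd M H → ¬ SA H → K.A = n → K.Vf = v → K.SB M' → K.hg.bb = b → K.Ew = e → K.Ns ≤ s

/-- a minimal counterexample -/
structure KCrit (M M' : ℕ) {H V : Type} [Group H] [MulAction H V] (K : PX H V) : Prop where
  bd : KBd M H
  bad : ¬ SA H
  le : M ≤ M'
  clean : K.Clean
  allP : K.AllP
  link : K.LinkC
  sb : K.SB M'
  min : KMinS M M' K.A K.Vf K.hg.bb K.Ew K.Ns

end Pool.Agent.BT
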