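import Pool.Agent.BT.Hat
import Pool.Agent.BTK.KCrit

/-!
# BTK: lemma Z and the vertices with poles (bounded kernels)
-/

namespace Pool.Agent.BT

open MulAction
open Pool.Agent.SAF (InC orbs FinOrb oc Decomp SAn SA Conv hull TAct bad_vertex)

variable {H V : Type} [Group H] [MulAction H V]

/-- the number `n` of pentagons is minimal for the bad subgroups of `H` -/
def MinSub (H : Type) [Group H] (n : ℕ) : Prop :=
  ∀ (S : Subgroup H) (V' : Type) [MulAction ↥S V'] (L : PX ↥S V'), ¬ SA ↥S → n ≤ L.A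

theorem KCrit.minSub {M M' : ℕ} {K : PX H V} (hK : KCrit M M' K) : MinSub H K.A :=
  fun S _ _ L hS => hK.min.1.1.1.1 _ _ L (hK.bd.sub S) hS

/-- the slices of a system of a pre-complex: if each slice has fewer pentagons than a minimal
counterexample then the group is strongly accessible -/
theorem MinSub.exists_all {n : ℕ} (hn : MinSub H n) (hb : ¬ SA H)
    (K : PQ H V) (hK : K.A ≤ n) {D : Decomp H} (S : Sy K D) (hc : S.Conn)
    (hC : ∀ x, ∀ w ∈ S.J x, InC ↥(stabilizer H x ⊓ stabilizer H w)) :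
    ∃ w : D.X, ¬ SA ↥(stabilizer H w) ∧ K.A = n ∧
      ∀ i : K.I, ∃ h : H, S.IsC (fun k => h • K.pt i k) w := by
  obtain ⟨w, hw⟩ := bad_vertex D hb
  obtain ⟨V', _, L, hL⟩ := exists_Xw K S hc hC w
  have h1 : n ≤ L.A := hn _ _ L hw
  have := K.finI
  have h2 : Nat.card (S.Iw w) ≤ K.A := by
    unfold Sy.Iw PQ.A
    exact Nat.card_le_card_of_injective (fun i => i.1) Subtype.val_injective
  refine ⟨w, hw, by omega, ?_⟩
  intro i
  by_contra hi
  have h3 : Nat.card (S.Iw w) < K.A := by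
    unfold Sy.Iw PQ.A
    exact Finite.card_subtype_lt hi
  omega

theorem MinSub.lemZ {K : PX H V} (hn : MinSub H K.A) (hb : ¬ SA H) {D : Decomp H}
    (S : Sy K.pq D) (hc : S.Conn) :
    ∃ w : D.X, ¬ SA ↥(stabilizer H w) ∧ ∀ i : K.I, ∃ h : H,
      S.IsC (fun k => h • K.pt i k) w := by
  obtain ⟨w, h1, -, h2⟩ := hn.exists_all hb K.pq le_rfl S hc
    (fun x w _ => stab_inf_inC K x w)
  exact ⟨w, h1, h2⟩

theorem MinSub.lemZ' {K : PX H V} (hn : MinSub H K.A) (hb : ¬ SA H) {D : Decomp H}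
    {J : V → Set D.X} (js : JS K.pq D J) (i : K.I) (c : D.X)
    (h : ∀ k, c ∈ J (K.pt i k) ∪ J (K.pt i (k + 1))) : ¬ InC ↥(stabilizer H c) := by
  intro hC
  obtain ⟨S, rfl⟩ := exists_sy_full K.pq D J js
  obtain ⟨D', S', pr, hc, p1, p2, -, -, -, -⟩ := thmA K.pq D S
  obtain ⟨w, hw, hall⟩ := hn.lemZ hb S' hc
  obtain ⟨g, hg⟩ := hall i
  have h1 : S'.IsC (K.pt i) (g⁻¹ • w) := by
    have := S'.IsC_smul g⁻¹ hg
    simpa using this
  have h2 : ∀ k, pr (g⁻¹ • w) ∈ S.J (K.pt i k) ∪ S.J (K.pt i (k + 1)) := by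
    intro k
    rcases h1 k with e | e
    · exact Or.inl (p2 _ _ e)
    · exact Or.inr (p2 _ _ e)
  have h3 : pr (g⁻¹ • w) = c := (js.centre (K.pt i) (K.pt_E i)).unique h2 h
  have h4 : stabilizer H (g⁻¹ • w) ≤ stabilizer H c := by
    intro k hk
    rw [mem_stabilizer_iff] at hk ⊢
    rw [← h3, ← p1, hk]
  exact hw (SA_stab_smul g⁻¹ w (SA_of_InC (Pool.Agent.SAG.InC.mono h4 hC)))

/-- NO VERTEX WITH POLES IS HYPERBOLIC -/
theorem MinSub.soft_ell {K : PX H V} (hn : MinSub H K.A) (hb : ¬ SA H) (hP : K.AllP)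
    (D : Decomp H) {x a : V} (hA : K.ar x a) : ∃ w : D.X, ∀ h ∈ stabilizer H x, h • w = w := by
  by_contra hcon
  have hx : hyv D x := by
    unfold hyv Hyp
    push Not at hcon
    exact hcon
  obtain ⟨q, hq⟩ := exists_lqq K D
  obtain ⟨J, hJ, js, -⟩ := exists_jq (lQP K D).px D (lL K D q) q (lqdat K D q hq)
  obtain ⟨S, hS⟩ := exists_sy_full (lQP K D).px D J js
  obtain ⟨D', S', pr, hc, p1, p2, -, -, -, -⟩ := thmA (lQP K D).px D S
  have hcard : (lQP K D).px.A < K.A := (lQP K D).card_lt (hP _ _ (Or.inl hA))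
    (lq_eq.2 (Relation.EqvGen.rel _ _ ⟨hA, hx⟩))
  obtain ⟨w, -, h1, -⟩ := hn.exists_all hb (lQP K D).px hcard.le S' hc (by
    intro X l hl
    have h2 := lq_stab K D q hq hJ X (pr l) (by rw [← hS]; exact p2 X l hl)
    apply SAG.InC.mono _ h2
    apply inf_le_inf le_rfl
    intro k hk
    rw [mem_stabilizer_iff] at hk ⊢
    rw [← p1, hk])
  omega

namespace KCrit

variable {M M' : ℕ} {K : PX H V}

theorem lemZ (hK : KCrit M M' K) {D : Decomp H} (S : Sy K.pq D) (hc : S.Conn) :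
    ∃ w : D.X, ¬ SA ↥(stabilizer H w) ∧ ∀ i : K.I, ∃ h : H, S.IsC (fun k => h • K.pt i k) w :=
  hK.minSub.lemZ hK.bad S hc

theorem lemZ' (hK : KCrit M M' K) {D : Decomp H} {J : V → Set D.X}
    (js : JS K.pq D J) (i : K.I) (c : D.X)
    (h : ∀ k, c ∈ J (K.pt i k) ∪ J (K.pt i (k + 1))) : ¬ InC ↥(stabilizer H c) :=
  hK.minSub.lemZ' hK.bad js i c h

theorem soft_ell (hK : KCrit M M' K) (D : Decomp H) {x a : V} (hA : K.ar x a) :
    ∃ w : D.X, ∀ h ∈ stabilizer H x, h • w = w :=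
  hK.minSub.soft_ell hK.bad hK.allP D hA

end KCrit

end Pool.Agent.BT
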