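import Pool.Agent.BTK.KCrit
import Pool.Agent.BT.XBr

/-!
# Bounded kernels: the number of finite sinks of the local piece; minimality of its reductions
-/

namespace Pool.Agent.BT

open MulAction
open Pool.Agent.SAF (orbs FinOrb mk_eq_iff FinOrb_iff TAct Conv InC SA oc)

section

variable {H V : Type} [Group H] [MulAction H V]

/-- the finite sinks on pentagons -/
def PQ.PSf (K : PQ H V) : Set V :=
  {v | (∀ a, ¬ K.ar v a) ∧ (∃ (g : H) (i : K.I) (j : Fin 5), v = g • K.pt i j) ∧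
    Finite ↥(stabilizer H v)}

/-- number of orbits of finite sinks on pentagons -/
noncomputable def PQ.Vf (K : PQ H V) : ℕ := oc H K.PSf

/-- the finite sinks on pentagons have at most `M'` elements -/
def PQ.SB (K : PQ H V) (M' : ℕ) : Prop := ∀ v ∈ K.PSf, Nat.card ↥(stabilizer H v) ≤ M'

theorem PQ.PSf_smul (K : PQ H V) (g : H) (v : V) (hv : v ∈ K.PSf) : g • v ∈ K.PSf := by
  obtain ⟨h1, ⟨k, i, j, rfl⟩, h3⟩ := hv
  refine ⟨?_, ⟨g * k, i, j, (mul_smul _ _ _).symm⟩, finite_stab_smul g h3⟩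
  intro a ha
  have := K.ar_smul g⁻¹ _ _ ha
  rw [inv_smul_smul] at this
  exact h1 _ this

theorem PX.pq_PSf (K : PX H V) : K.pq.PSf = K.PSf := rfl

theorem PX.pq_Vf (K : PX H V) : K.pq.Vf = K.Vf := rfl

theorem PX.pq_SB (K : PX H V) (M' : ℕ) : K.pq.SB M' ↔ K.SB M' :=
  ⟨fun h v h1 h2 h3 => h v ⟨h1, h2, h3⟩, fun h v hv => h v hv.1 hv.2.1 hv.2.2⟩

end

namespace JT

variable {H V X : Type} [Group H] [MulAction H V] [MulAction H X] (S : JT H V X)

/-- `J x` is a point for finite sinks `x` on pentagons, the centre of a pentagon through `x` -/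
def FSeen : Prop := ∀ x ∈ S.K.PSf, ∃ (g : H) (i : S.K.I) (j : Fin 5), x = g • S.K.pt i j ∧ S.J x = {g • S.c i}

/-- finite sinks of the local piece -/
theorem pxw_vf {w : X} (hc : ∀ i, ∃ h : H, h • w = S.c i) (hs : S.FSeen) :
    S.K.Vf ≤ (S.pxw w).Vf ∧
    ((S.pxw w).Vf ≤ S.K.Vf → ∀ M', S.K.SB M' → (S.pxw w).SB M') := by
  classical
  set R : Set (S.xs.YW w) := {v | v ∈ (S.pxw w).PSf ∧ ∃ x hx, v = S.nr w x hx ∧ x ∈ S.K.PSf}
    with hR
  have hRf : FinOrb ↥(stabilizer H w) R :=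
    SAF.FinOrb.mono (fun v h => h.1) (S.pxw w).PSf_fin
  have hstab : ∀ x hx, Finite ↥(stabilizer H x) →
      Finite ↥(stabilizer ↥(stabilizer H w) (S.nr w x hx)) ∧
      Nat.card ↥(stabilizer ↥(stabilizer H w) (S.nr w x hx)) ≤ Nat.card ↥(stabilizer H x) := by
    intro x hx hf
    have hmem : ∀ s : ↥(stabilizer ↥(stabilizer H w) (S.nr w x hx)), s.1.1 • x = x := by
      intro s
      have e : ((s.1.1 • w, Sum.inl (s.1.1 • x)) : X × (V ⊕ X)) = (w, Sum.inl x) :=
        congrArg (fun z : S.xs.YW w => z.1.1) s.2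
      exact Sum.inl.inj (Prod.mk.inj e).2
    have hinj : Function.Injective (fun s : ↥(stabilizer ↥(stabilizer H w) (S.nr w x hx)) =>
        (⟨s.1.1, hmem s⟩ : ↥(stabilizer H x))) := by
      intro s s' e
      have e' : s.1.1 = s'.1.1 := congrArg (fun z : ↥(stabilizer H x) => z.1) e
      exact Subtype.ext (Subtype.ext e')
    exact ⟨Finite.of_injective _ hinj, Nat.card_le_card_of_injective _ hinj⟩
  obtain ⟨x0⟩ : Nonempty V := S.K.ne
  set F : S.xs.YW w → V := fun y => match y.1.1.2 with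
    | Sum.inl x => x
    | Sum.inr _ => x0 with hF
  have hFn : ∀ x hx, F (S.nr w x hx) = x := fun _ _ => rfl
  have hle : S.K.Vf ≤ oc ↥(stabilizer H w) R := by
    apply SAF.oc_le_of_surj hRf F
    · rintro v ⟨v1, v2, v3⟩
      obtain ⟨g, i, j, e, hcv⟩ := hs v ⟨v1, v2, v3⟩
      -- the translate with centre `w`
      have hi : ∃ k : H, k • w = S.c i := hc i
      obtain ⟨k, hk⟩ : ∃ k : H, k = hi.choose := ⟨_, rfl⟩
      have hk' : k • w = S.c i := hk ▸ hi.choose_spec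
      obtain ⟨m, hm⟩ : ∃ m : H, m = (g * k)⁻¹ := ⟨_, rfl⟩
      have hw : m • g • S.c i = w := by
        rw [hm, ← hk', ← mul_smul, ← mul_smul]
        rw [show (g * k)⁻¹ * g * k = 1 by group, one_smul]
      have hJ1 : ∀ u, u ∈ S.J (m • v) ↔ u = w := by
        intro u
        constructor
        · intro hu
          have := S.J_smul m⁻¹ _ _ hu
          rw [inv_smul_smul, hcv, Set.mem_singleton_iff, inv_smul_eq_iff, hw] at this
          exact this
        · rintro rfl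
          have h1 : g • S.c i ∈ S.J v := by rw [hcv]; rfl
          have := S.J_smul m _ _ h1
          rwa [hw] at this
      have hJ : w ∈ S.J (m • v) := (hJ1 w).2 rfl
      have hP : m • v ∈ S.K.PSf := S.K.PSf_smul m v ⟨v1, v2, v3⟩
      refine ⟨S.nr w (m • v) hJ, ⟨⟨?_, ?_, (hstab _ _ hP.2.2).1⟩, _, hJ, rfl, hP⟩,
        m⁻¹, by rw [hFn, inv_smul_smul]⟩
      · intro a ha
        have ha : S.AY (w, Sum.inl (m • v)) a.1.1 := ha
        rcases S.YW_cases a with ⟨y, hy, rfl⟩ | ⟨u, hu, rfl⟩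
        · have h' : S.AY (w, Sum.inl (m • v)) (w, Sum.inl y) := ha
          cases h' with
          | hor _ _ _ e => exact hP.1 _ e
        · have h' : S.AY (w, Sum.inl (m • v)) (w, Sum.inr u) := ha
          cases h' with
          | up _ _ _ e => exact e.1.ne ((hJ1 u).1 e.2.2).symm
      · have e2 : m • v = k⁻¹ • S.K.pt i j := by
          rw [e, hm, ← mul_smul]
          congr 1
          group
        have e3 : (S.pxw w).pt (⟨i, hi⟩ : S.IW w) j = S.nr w (m • v) hJ := by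
          have e4 : (S.pxw w).pt (⟨i, hi⟩ : S.IW w) j = S.rho w (k⁻¹ • S.K.pt i j) := by
            rw [hk]
            rfl
          rw [e4, ← e2, S.rho_near hJ]
        rw [← e3]
        exact PX.VP_pt _ _
    · rintro a ⟨_, x, hx, rfl, _⟩ b ⟨_, y, hy, rfl, _⟩ ⟨s, e⟩
      refine ⟨s.1, ?_⟩
      have e : ((s.1 • w, Sum.inl (s.1 • x)) : X × (V ⊕ X)) = (w, Sum.inl y) :=
        congrArg (fun z : S.xs.YW w => z.1.1) e
      exact Sum.inl.inj (Prod.mk.inj e).2
  have hle2 : oc ↥(stabilizer H w) R ≤ (S.pxw w).Vf :=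
    SAF.oc_mono (S.pxw w).PSf_fin (fun v h => h.1)
  refine ⟨hle.trans hle2, ?_⟩
  intro hge M' hM v v1 v2 v3
  by_cases hv : ∃ x hx, v = S.nr w x hx ∧ x ∈ S.K.PSf
  · obtain ⟨x, hx, rfl, hx'⟩ := hv
    exact (hstab x hx hx'.2.2).2.trans (hM _ hx')
  · exfalso
    have hlt : oc ↥(stabilizer H w) R < (S.pxw w).Vf := by
      apply SAF.oc_lt_of_inj (S.pxw w).PSf_fin (fun v => v) (fun v h => h.1) ?_
        (b0 := v) ⟨v1, v2, v3⟩
      · rintro a ⟨-, x, hx, rfl, ha⟩ s rfl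
        apply hv
        have hw : s.1 • w = w := s.2
        have hJ : w ∈ S.J (s.1 • x) := by
          have := S.J_smul s.1 _ _ hx
          rwa [hw] at this
        refine ⟨s.1 • x, hJ, ?_, S.K.PSf_smul s.1 _ ha⟩
        apply Subtype.ext
        apply Subtype.ext
        show ((s.1 • w, Sum.inl (s.1 • x)) : X × (V ⊕ X)) = (w, Sum.inl (s.1 • x))
        rw [hw]
      · rintro a _ b _ ⟨s, e⟩
        exact ⟨s, e⟩
    omega

/-- the values of a minimal complex at a bad vertex of the tree -/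
theorem kvals {M M' : ℕ} {P : PX H V} (hK : KCrit M M' P) (e : S.K = P.pq) (hs : S.FSeen)
    {w : X} (hw : ¬ SA ↥(stabilizer H w)) {V' : Type} [MulAction ↥(stabilizer H w) V']
    {K' : PX ↥(stabilizer H w) V'} {f : S.xs.YW w → V'} (r : Red (S.pxw w) K' f) :
    (∀ i, ∃ h : H, h • w = S.c i) ∧ K'.A = P.A ∧ K'.Vf = P.Vf ∧ K'.SB M' := by
  have hb := hK.bd.sub (stabilizer H w)
  have eA : S.K.A = P.A := by rw [e]; rfl
  have eV : S.K.Vf = P.Vf := by rw [e]; rfl
  have a1 : P.A ≤ K'.A := hK.min.1.1.1.1 _ _ K' hb hw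
  have a2 : K'.A ≤ (S.pxw w).A := r.card_le
  have a3 := S.pxw_A_le w
  have a4 : K'.A = P.A := by omega
  have hc : ∀ i, ∃ h : H, h • w = S.c i := fun i => S.centre_of_card (by omega) i
  obtain ⟨v1, v2⟩ := S.pxw_vf hc hs
  obtain ⟨v3, -, v4⟩ := r.vf (by omega)
  have v5 : K'.Vf ≤ P.Vf := hK.min.1.1.1.2 _ _ K' hb hw a4
  refine ⟨hc, a4, by omega, v4 (by omega) M' (v2 (by omega) M' ?_)⟩
  rw [e, PX.pq_SB]
  exact hK.sb

/-- minimality of the clean quotients of the local piece -/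
theorem kmin {M M' : ℕ} {P : PX H V} (hK : KCrit M M' P) (e : S.K = P.pq) (hs : S.FSeen)
    {w : X} (hw : ¬ SA ↥(stabilizer H w)) (V' : Type) [MulAction ↥(stabilizer H w) V']
    (K' : PX ↥(stabilizer H w) V') (f : S.xs.YW w → V') (r : Red (S.pxw w) K' f) :
    S.K.hg.bb ≤ K'.hg.bb := by
  obtain ⟨-, h1, h2, h3⟩ := S.kvals hK e hs hw r
  have h4 := hK.min.1.1.2 _ _ K' (hK.bd.sub (stabilizer H w)) hw h1 h2 h3
  have eb : S.K.hg.bb = P.hg.bb := by rw [e]; rfl
  rw [eb]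
  exact h4

/-- THE BRIDGE PROPERTY, bounded kernels -/
theorem br_k {M M' : ℕ} {P : PX H V} (hK : KCrit M M' P) (e : S.K = P.pq) (hs : S.FSeen)
    {TE : V → V → Set X} (TE_J : ∀ x y w, S.K.E x y → w ∈ TE x y → w ∈ S.J x ∨ w ∈ S.J y)
    (Q : V → Prop) {w u : X} (h : S.T.Adj w u) {x y : V} (hl : ¬ Heavy H (x, y)) :
    Br (fun a b => S.K.E a b ∧ w ∈ TE a b ∧ u ∈ TE a b)
      {z | Q z ∧ Heavy H (z, w, u)} x y := by
  obtain ⟨w0, hw0⟩ := Pool.Agent.SAF.exists_bad_of_tree S.T S.act.tree S.act.adj_smul S.act.noinv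
    S.finX S.finT S.edgeC hK.bad
  obtain ⟨g, hg⟩ : ∃ g : H, g • w0 = Quotient.out (Quotient.mk'' w0 : orbitRel.Quotient H X) := by
    have e1 : (Quotient.mk'' (Quotient.out (Quotient.mk'' w0 : orbitRel.Quotient H X)) :
      orbitRel.Quotient H X) = Quotient.mk'' w0 := Quotient.out_eq _
    exact mk_eq_iff.1 e1
  have hw : ¬ SA ↥(stabilizer H (Quotient.out (Quotient.mk'' w0 : orbitRel.Quotient H X))) := by
    intro hsa
    apply hw0
    rw [← hg] at hsa
    exact Pool.Agent.SAF.SA.iso (stabilizerEquivStabilizer (G := H) (a := w0) (b := g • w0) (g := g)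
      rfl).symm hsa
  apply S.br_red P.stab (Quotient.mk'' w0) ?_ TE_J Q h hl
  intro V' _ K' f r _
  exact S.kmin hK e hs hw V' K' f r

end JT

end Pool.Agent.BT
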