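import Pool.Agent.BT.End
import Pool.Agent.BT.FlipG
import Pool.Agent.BTK.KHat
import Pool.Agent.BTK.XVf
import Pool.Agent.SAG.AF

/-!
# BTK: the first system of a minimal counterexample, bounded kernels
-/

namespace Pool.Agent.BT

open MulAction
open Pool.Agent.SAF (InC orbs FinOrb oc Decomp SAn SA Conv hull TAct FinOrb_iff exists_equivariant)

section

variable {H V : Type} [Group H] [MulAction H V] {K : PX H V}

/-- the sinks in `P` have a point as subtree, the centre of a pentagon -/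
def Sy.Seen {D : Decomp H} (S : Sy K.pq D) (P : V → Prop) : Prop :=
  ∀ x, K.Sink x → P x → ∃ (h : H) (i : K.I) (k : Fin 5), x = h • K.pt i k ∧ S.J x = {h • S.cc i}

/-- the bridge property from minimality, bounded kernels -/
theorem Sy.br_of_kcrit {M M' : ℕ} (hK : KCrit M M' K) {D : Decomp H} (S : Sy K.pq D)
    (hc : S.Conn) (hs : S.Seen (fun x => Finite ↥(stabilizer H x))) : S.BR := by
  intro w u a x y e h1 h2
  by_cases hh : Heavy H (x, y)
  · exact Or.inl hh
  right
  have hC : ∀ x, ∀ w ∈ S.J x, InC ↥(stabilizer H x ⊓ stabilizer H w) :=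
    fun x w _ => stab_inf_inC K x w
  have hF : (S.jt hc hC).FSeen := by
    intro x hx
    obtain ⟨g, i, k, e1, e2⟩ := hs x hx.1 hx.2.2
    exact ⟨g, i, k, e1, e2⟩
  have := (S.jt hc hC).br_k hK rfl hF (TE := S.T) (fun x y w e hw => S.T_sub x y e hw)
    (fun z => w ∈ S.TV z ∧ u ∈ S.TV z) a hh
  obtain ⟨σ, s1, s2⟩ := this
  exact ⟨σ, fun z hz => s1 z ⟨⟨hz.1, hz.2.1⟩, hz.2.2⟩, s2⟩

/-- from subtrees of a decomposition in which finite sinks are seen to a connected system of
another one -/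
theorem exists_kconn {M M' : ℕ} (hK : KCrit M M' K) (D : Decomp H) {J : V → Set D.X}
    (js : JS K.pq D J)
    (hn : ∀ x y, K.E x y → Infinite ↥(stabilizer H x ⊓ stabilizer H y) →
      (J x).Finite ∧ (J y).Finite)
    (hsk : ∀ x, K.Sink x → (∃ q, J x = {q}) ∨ hyv D x)
    (P : V → Prop) (hP : ∀ x, Finite ↥(stabilizer H x) → P x)
    (hse : ∀ x, K.Sink x → P x → ∃ q, J x = {q} ∧ ∃ (h : H) (i : K.I) (k : Fin 5),
      x = h • K.pt i k ∧ ∀ k', q ∈ J (h • K.pt i k') ∪ J (h • K.pt i (k' + 1))) :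
    ∃ (D' : Decomp H) (S : Sy K.pq D') (pr : D'.X → D.X), S.Conn ∧ S.TFin ∧ S.NL ∧ S.SK ∧ S.BR ∧
      (∀ (h : H) l, pr (h • l) = h • pr l) ∧ S.Seen P := by
  obtain ⟨S0, hS0, ht0, hn0⟩ := exists_sy_hull K D J js hK.clean hn
  subst hS0
  obtain ⟨D', S, pr, hc, p1, p2, p3, p4, p5, p6⟩ := thmA K.pq D S0
  have hS : S.Seen P := by
    intro x hx hPx
    obtain ⟨q, hq, h, i, k, e, hk⟩ := hse x hx hPx
    refine ⟨h, i, k, e, ?_⟩
    have hcs : S.IsC (fun k => h • K.pt i k) (h • S.cc i) := S.isC_smul h (S.cc_spec i)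
    have h1 : S0.IsC (fun k => h • K.pt i k) (pr (h • S.cc i)) := by
      intro k'
      exact (hcs k').imp (p2 _ _) (p2 _ _)
    have h2 : S0.IsC (fun k => h • K.pt i k) q := fun k' => hk k'
    have h3 : pr (h • S.cc i) = q := S0.isC_unique h1 h2
    have hmem : h • S.cc i ∈ S.J x := by
      rcases hcs k with h4 | h4
      · rw [e]
        exact h4
      · have e5 : K.E x (h • K.pt i (k + 1)) := by
          rw [e]
          exact K.E_smul h (K.pt_E i k)
        have h6 := S.p_l (x := x) (y := h • K.pt i (k + 1)) e5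
        have h7 := S.p_r (x := x) (y := h • K.pt i (k + 1)) e5
        have h8 : pr (S.p x (h • K.pt i (k + 1))) = q := by
          have := p2 _ _ h6
          rw [hq] at this
          exact this
        have h9 := p4 _ _ h4 _ h7 (h3.trans h8.symm)
        rw [h9]
        exact h6
    ext l
    constructor
    · intro hl
      have h5 := p2 _ _ hl
      rw [hq, Set.mem_singleton_iff] at h5
      exact p4 _ _ hl _ hmem (h5.trans h3.symm)
    · rintro rfl
      exact hmem
  refine ⟨D', S, pr, hc, p5 ht0, p6 hn0, ?_,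
    S.br_of_kcrit hK hc (fun x hx hf => hS x hx (hP x hf)), p1, hS⟩
  intro x hx w u a hw hu hh
  rcases hsk x hx with ⟨q, hq⟩ | hy
  · have e1 := p2 x w hw
    have e2 := p2 x u hu
    rw [hq] at e1 e2
    have := p4 x w hw u hu (e1.trans e2.symm)
    rw [this] at a
    exact D'.G.loopless.irrefl _ a
  · apply hh
    apply finite_of_hyp (tact D) (K.stab x) hy (w := pr w)
    · intro g hg
      exact congrArg Prod.fst (mem_stabilizer_iff.1 hg)
    · intro g hg
      have : g • w = w := congrArg (fun p : V × D'.X × D'.X => p.2.1) (mem_stabilizer_iff.1 hg)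
      rw [← p1, this]

theorem not_hyv_iff_ell {D : Decomp H} {x : V} : ¬ hyv D x ↔ Ell H D.X x := by
  unfold hyv Hyp Ell
  push Not
  rfl

/-- an edge with infinite stabiliser has elliptic ends -/
theorem KCrit.ell_of_heavy {M M' : ℕ} (hK : KCrit M M' K) (D : Decomp H) {x y : V} (e : K.E x y)
    (hi : Infinite ↥(stabilizer H x ⊓ stabilizer H y)) : ¬ hyv D x ∧ ¬ hyv D y := by
  have key : ∀ x y, K.ar x y → Infinite ↥(stabilizer H x ⊓ stabilizer H y) →
      ¬ hyv D x ∧ ¬ hyv D y := by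
    intro x y e hi
    obtain ⟨w, hw⟩ := hK.soft_ell D e
    refine ⟨not_hyv_of_fix hw, ?_⟩
    intro hy
    have := finite_of_hyp (tact D) (K.stab y) hy (B := stabilizer H x ⊓ stabilizer H y)
      inf_le_right (w := w) (fun b hb => hw b hb.1)
    exact not_finite_iff_infinite.2 hi this
  rcases e with e | e
  · exact key x y e hi
  · rw [inf_comm] at hi
    exact (key y x e hi).symm

/-- finite stabilisers are elliptic -/
theorem ell_of_finite (D : Decomp H) (x : V) (hf : Finite ↥(stabilizer H x)) : Ell H D.X x := by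
  have := D.tree.1.nonempty
  exact Pool.Agent.SAG.fix_of_finite (tact D) _ hf

/-- THE FIRST SYSTEM: all elliptic sinks are seen -/
theorem exists_kfirst {M M' : ℕ} (hK : KCrit M M' K) (D : Decomp H) :
    ∃ (D' : Decomp H) (S : Sy K.pq D'), S.Conn ∧ S.TFin ∧ S.NL ∧ S.SK ∧ S.BR ∧
      (∀ x : V, Ell H D'.X x → Ell H D.X x) ∧ S.Seen (fun x => Ell H D'.X x) := by
  obtain ⟨D1, q, J, hQ, hJ, js, hfin, hell, hseen⟩ := exists_seen_gen hK.allP hK.link D
    (fun js i c h => hK.lemZ' js i c h) (fun D x a ha => hK.soft_ell D ha)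
  have hsink : ∀ x, K.Sink x → Ell H D1.X x → J x = {q x} := by
    intro x hx he
    rw [hJ.sink x hx]
    exact if_pos he
  obtain ⟨D', S, pr, h1, h2, h3, h4, h5, h6, h7⟩ := exists_kconn hK D1 js (by
    intro x y e hi
    obtain ⟨a, b⟩ := hK.ell_of_heavy D1 e hi
    exact ⟨hfin x (not_hyv_iff_ell.1 a), hfin y (not_hyv_iff_ell.1 b)⟩) (by
    intro x hx
    by_cases hy : hyv D1 x
    · exact Or.inr hy
    · exact Or.inl ⟨q x, hsink x hx (not_hyv_iff_ell.1 hy)⟩)
    (fun x => Ell H D1.X x) (fun x hf => ell_of_finite D1 x hf) (by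
    intro x hx he
    obtain ⟨h, i, k, e, hk⟩ := hseen x hx he
    exact ⟨q x, hsink x hx he, h, i, k, e, hk⟩)
  have hpr : ∀ x : V, Ell H D'.X x → Ell H D1.X x := by
    rintro x ⟨c, hc⟩
    exact ⟨pr c, fun g hg => by rw [← h6, hc g hg]⟩
  exact ⟨D', S, h1, h2, h3, h4, h5, fun x hx => hell x (hpr x hx), fun x hx he => h7 x hx (hpr x he)⟩

end

end Pool.Agent.BT
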