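import Pool.Agent.BT.KE
import Pool.Agent.BTK.KCrit

/-!
# BTK: the finite sinks of `K^w`
-/

namespace Pool.Agent.BT

open MulAction
open Pool.Agent.SAF (orbs FinOrb oc mk_eq_iff FinOrb_iff TAct Conv InC SA)

namespace TS

variable {H V X : Type} [Group H] [MulAction H V] [MulAction H X] (S : TS H V X)

/-- `x` is seen: `J x` is the centre of a pentagon through `x` -/
def Sn (x : V) : Prop := ∃ y, ∃ c, S.J x = {c} ∧ S.W x y c

variable {S} in
theorem J_smul_eq {x : V} {c : X} (h : S.J x = {c}) (g : H) : S.J (g • x) = {g • c} := by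
  ext z
  constructor
  · intro hz
    have h1 := S.J_smul g⁻¹ _ _ hz
    rw [inv_smul_smul, h] at h1
    have h2 : g⁻¹ • z = c := h1
    rw [← h2, smul_inv_smul]
    rfl
  · intro hz
    have h1 : z = g • c := hz
    rw [h1]
    apply S.J_smul
    rw [h]
    rfl

variable {S} in
theorem Sn.smul {x : V} (h : S.Sn x) (g : H) : S.Sn (g • x) := by
  obtain ⟨y, c, h1, h2⟩ := h
  exact ⟨g • y, g • c, J_smul_eq h1 g, h2.smul g⟩

open Classical in
/-- `x@w` as a total function -/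
noncomputable def kf (w : X) (x : V) : S.KV w :=
  if h : w ∈ S.TV x then S.kat w x h else (S.KW w).ne.some

theorem kf_of {w : X} {x : V} (h : S.J x = {w}) : (S.kf w x).1 = Sum.inl x := by
  have hw : w ∈ S.J x := by rw [h]; rfl
  have h1 : S.kf w x = S.kat w x (S.J_TV _ _ hw) := dif_pos (S.J_TV _ _ hw)
  rw [h1]
  exact atv_J hw

/-- finite sinks over `w` -/
def Rf (w : X) : Set V := {x | x ∈ S.K.PSf ∧ S.J x = {w} ∧ S.Sn x}

theorem Rf_sub {w : X} {x : V} (hx : x ∈ S.Rf w) : S.kf w x ∈ (S.KW w).PSf ∧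
    Nat.card ↥(stabilizer ↥(stabilizer H w) (S.kf w x)) ≤ Nat.card ↥(stabilizer H x) := by
  obtain ⟨⟨h1, h2, h3⟩, h4, y, c, h5, h6⟩ := hx
  have e := S.kf_of h4
  have hcw : c = w := by
    rw [h4] at h5
    exact (Set.singleton_injective h5).symm
  subst hcw
  have hw : c ∈ S.J x := by rw [h4]; rfl
  have hwx : c ∈ S.TV x := S.J_TV _ _ hw
  have hwy : c ∈ S.TV y := S.TE_TV _ _ _ (h6.inP.E).symm (S.TE_symm _ _ _ h6.inP.E h6.TE)
  have ekf : S.kf c x = S.kat c x hwx := dif_pos hwx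
  have hinj : Function.Injective (fun k : ↥(stabilizer ↥(stabilizer H c) (S.kf c x)) =>
      (⟨k.1.1, by
        have h7 : k.1 • S.kf c x = S.kf c x := k.2
        have h8 := congrArg Subtype.val h7
        rw [KV_val, e] at h8
        exact Sum.inl_injective h8⟩ : ↥(stabilizer H x))) := by
    intro a b hab
    exact Subtype.ext (Subtype.ext (congrArg (fun t : ↥(stabilizer H x) => (t : H)) hab))
  refine ⟨⟨?_, ?_, Finite.of_injective _ hinj⟩, Nat.card_le_card_of_injective _ hinj⟩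
  · intro t ht
    have ht' : S.KA c (S.kf c x).1 t.1 := ht
    rw [e] at ht'
    generalize t.1 = t1 at ht'
    cases ht' with
    | rr _ a k1 k2 => exact h1 a k1
    | rt _ a u k1 k2 k3 => exact h1 a k1
    | cr _ u k1 k2 k3 k4 =>
      rw [h4] at k3
      have : u = c := k3
      rw [this] at k1
      exact S.T.ne_of_adj k1 rfl
  · rw [ekf]
    exact (S.kInP h6 hwx hwy).vp

/-- THE FINITE SINKS OF `K^w` -/
theorem vf_KW {w : X} (hc : ∀ i : S.K.I, ∃ g : H, g • S.c i = w) (hs : ∀ x ∈ S.K.PSf, S.Sn x) :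
    S.K.Vf ≤ (S.KW w).Vf ∧
      ((S.KW w).Vf ≤ S.K.Vf → ∀ M', S.K.SB M' → (S.KW w).SB M') := by
  have hR : FinOrb ↥(stabilizer H w) (S.Rf w) := by
    refine (finOrb_slice_snd S.fV w).mono ?_
    rintro x ⟨-, h2, -⟩
    change w ∈ S.TV x
    apply S.J_TV
    rw [h2]
    rfl
  have hle : S.K.Vf ≤ oc ↥(stabilizer H w) (S.Rf w) := by
    apply SAF.oc_le_of_surj hR (fun x : V => x)
    · intro x hx
      obtain ⟨y, c, h1, h2⟩ := hs x hx
      have h3 : ∃ g : H, g • c = w := by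
        obtain ⟨g, i, j, e, -⟩ := h2
        obtain ⟨k, hk⟩ := hc i
        refine ⟨k * g⁻¹, ?_⟩
        rw [mul_smul, ← e, inv_smul_smul, hk]
      obtain ⟨g, hg⟩ := h3
      refine ⟨g • x, ⟨S.K.PSf_smul g x hx, ?_, (hs x hx).smul g⟩, g⁻¹, inv_smul_smul _ _⟩
      rw [J_smul_eq h1 g, hg]
    · rintro a _ b _ ⟨s, e⟩
      exact ⟨s.1, e⟩
  have hinj : ∀ a ∈ S.Rf w, ∀ b ∈ S.Rf w,
      (∃ h : ↥(stabilizer H w), h • S.kf w a = S.kf w b) → ∃ h : ↥(stabilizer H w), h • a = b := by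
    rintro a ha b hb ⟨k, e⟩
    refine ⟨k, ?_⟩
    have h8 := congrArg Subtype.val e
    rw [KV_val, S.kf_of ha.2.1, S.kf_of hb.2.1] at h8
    exact Sum.inl_injective h8
  have hle2 : oc ↥(stabilizer H w) (S.Rf w) ≤ (S.KW w).Vf :=
    SAF.oc_le_of_inj (S.KW w).PSf_fin (S.kf w) (fun a ha => (S.Rf_sub ha).1) hinj
  refine ⟨hle.trans hle2, ?_⟩
  intro hge M' hM v v1 v2 v3
  by_cases hex : ∃ a ∈ S.Rf w, ∃ k : ↥(stabilizer H w), k • S.kf w a = v
  · obtain ⟨a, ha, k, rfl⟩ := hex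
    have h4 : Nat.card ↥(stabilizer ↥(stabilizer H w) (k • S.kf w a)) =
        Nat.card ↥(stabilizer ↥(stabilizer H w) (S.kf w a)) := by
      rw [stabilizer_smul_eq_stabilizer_map_conj]
      exact (Nat.card_congr
        (Subgroup.equivMapOfInjective _ _ (MulAut.conj k).injective).toEquiv).symm
    rw [h4]
    exact (S.Rf_sub ha).2.trans (hM a ha.1.1 ha.1.2.1 ha.1.2.2)
  · exfalso
    push Not at hex
    have hlt : oc ↥(stabilizer H w) (S.Rf w) < (S.KW w).Vf :=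
      SAF.oc_lt_of_inj (S.KW w).PSf_fin (S.kf w) (fun a ha => (S.Rf_sub ha).1) hinj (b0 := v)
        ⟨v1, v2, v3⟩ hex
    omega

/-- the values of a minimal complex (bounded kernels) -/
theorem kcrit_eq {M M' : ℕ} (hK : KCrit M M' S.K) (hs : ∀ x ∈ S.K.PSf, S.Sn x) {w : X}
    (hw : ¬ SA ↥(stabilizer H w)) :
    (∀ i : S.K.I, ∃ g : H, g • S.c i = w) ∧ (S.KW w).Ns ≤ S.K.Ns ∧
      mass H S.WW ≤ S.K.Ew := by
  obtain ⟨⟨⟨⟨m1, mv⟩, m2⟩, m3⟩, m4⟩ := hK.min
  have hb := hK.bd.sub (stabilizer H w)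
  have a1 := m1 _ _ (S.KW w) hb hw
  have a2 : (S.KW w).A = S.K.A := le_antisymm (S.A_le w) a1
  have hc := S.centres a1
  have v1 := mv _ _ (S.KW w) hb hw a2
  obtain ⟨v2, v3⟩ := S.vf_KW hc hs
  have v4 : (S.KW w).Vf = S.K.Vf := le_antisymm v1 v2
  have sb := v3 v1 M' hK.sb
  have b1 := m2 _ _ (S.KW w) hb hw a2 v4 sb
  have b2 : (S.KW w).hg.bb = S.K.hg.bb := le_antisymm (S.bb_le w) b1
  have e1 := m3 _ _ (S.KW w) hb hw a2 v4 sb b2
  have e2 := S.Ew_le_WW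
  have e3 := S.WW_le hc
  have e4 : (S.KW w).Ew = S.K.Ew := le_antisymm e1 (e2.trans e3)
  exact ⟨hc, m4 _ _ (S.KW w) hb hw a2 v4 sb b2 e4, by rw [← e4]; exact e3⟩

/-- every light arrow of a minimal complex has one centre (bounded kernels) -/
theorem light_one' {M M' : ℕ} (hK : KCrit M M' S.K) (hs : ∀ x ∈ S.K.PSf, S.Sn x) {x a : V}
    (hx : S.K.ar x a) (hf : ¬ Heavy H (x, a)) {c c' : X} (hc : S.W x a c) (hc' : S.W x a c') :
    c = c' := by
  obtain ⟨w, hw⟩ := S.exists_bad hK.bad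
  obtain ⟨-, -, h3⟩ := S.kcrit_eq hK hs hw
  have himg : (Prod.fst : (V × V) × X → V × V) '' S.WW = S.K.PA := by
    ext p
    constructor
    · rintro ⟨q, hq, rfl⟩
      exact ⟨hq.1, hq.2.inP⟩
    · rintro ⟨h3, h4⟩
      obtain ⟨c, hc⟩ := W.of_inP h4
      exact ⟨(p, c), ⟨h3, hc⟩, rfl⟩
  have h4 : mass H S.WW ≤ mass H ((Prod.fst : (V × V) × X → V × V) '' S.WW) := by
    rw [himg]
    exact h3
  have h5 : Finite ↥(stabilizer H ((x, a), c)) := by
    have h6 : Finite ↥(stabilizer H (x, a)) := by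
      by_contra h7
      exact hf h7
    refine finite_of_le ?_ h6
    intro k hk
    exact congrArg Prod.fst (mem_stabilizer_iff.1 hk)
  have h6 := (eq_of_mass_eq (F := (Prod.fst : (V × V) × X → V × V)) (fun _ _ => rfl) S.WW_fin h4
    (a := ((x, a), c)) (b := ((x, a), c')) ⟨hx, hc⟩ ⟨hx, hc'⟩ rfl h5).1
  exact congrArg Prod.snd h6

end TS

end Pool.Agent.BT
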