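import Pool.Agent.BT.KN
import Pool.Agent.BTK.KVf

/-!
# BTK: in `K^w` there is a new sink on a pentagon (bounded kernels)
-/

namespace Pool.Agent.BT

open MulAction
open Pool.Agent.SAF (orbs FinOrb mk_eq_iff FinOrb_iff TAct Conv InC exists_next dist_edge SA oc)

namespace TS

variable {H V X : Type} [Group H] [MulAction H V] [MulAction H X] (S : TS H V X)

/-- not every sink is seen -/
theorem not_all_seen' {M M' : ℕ} (hK : KCrit M M' S.K) (hno : ∀ w : X, ∃ h : H, h • w ≠ w)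
    (hs : ∀ x, S.K.Sink x → S.K.VP x → ∃ y, ∃ c ∈ S.J x, S.W x y c)
    (hf : ∀ x ∈ S.K.PSf, S.Sn x) : False := by
  classical
  -- there is an edge
  have hne : ∃ x y, S.K.E x y := by
    by_contra hcon
    push Not at hcon
    have h1 : ∀ x y : V, x = y := by
      intro x y
      induction S.K.conn x y with
      | refl => rfl
      | tail _ e ih => exact absurd e (hcon _ _)
    obtain ⟨v⟩ := S.K.ne
    have h2 : ∀ h : H, h • v = v := fun h => h1 _ _
    have h3 : InC H := by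
      have e : stabilizer H v = ⊤ := by
        rw [eq_top_iff]
        intro g _
        exact h2 g
      have h4 := S.K.stab v
      rw [e] at h4
      exact InC.inj (Subgroup.topEquiv (G := H)).symm.toMonoidHom
        (Subgroup.topEquiv (G := H)).symm.injective h4
    exact hK.bad (SA_of_InC h3)
  obtain ⟨x, y, c, c', hc, hc', hcc⟩ := S.two_centres hK.allP hK.link hno hne
  have hE : S.K.E x y := hc.inP.E
  -- the arrow is heavy
  have hh : Heavy H (x, y) := by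
    by_contra hl
    rcases hE with h | h
    · exact hcc (S.light_one' hK hf h hl hc hc')
    · refine hcc (S.light_one' hK hf h ?_ hc.symm hc'.symm)
      intro h2
      apply h2
      have h3 : Finite ↥(stabilizer H (x, y)) := by
        by_contra h4
        exact hl h4
      refine finite_of_le ?_ h3
      intro k hk
      exact mem_stabilizer_iff.2 (Prod.ext (congrArg Prod.snd (mem_stabilizer_iff.1 hk))
        (congrArg Prod.fst (mem_stabilizer_iff.1 hk)))
  obtain ⟨w, hw, hwp⟩ : ∃ w, S.W x y w ∧ w ≠ S.p x y := by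
    by_cases h : c = S.p x y
    · exact ⟨c', hc', fun h' => hcc (h.trans h'.symm)⟩
    · exact ⟨c, hc, h⟩
  obtain ⟨w1, hw1⟩ := S.exists_bad hK.bad
  obtain ⟨hcen, -, -⟩ := S.kcrit_eq hK hf hw1
  -- `w` is bad
  obtain ⟨g, i, j, hgi, -⟩ := id hw
  obtain ⟨k, hk⟩ := hcen i
  have hww : (k * g⁻¹) • w = w1 := by
    rw [mul_smul, ← hgi, inv_smul_smul, hk]
  have hbad : ¬ SA ↥(stabilizer H w) := by
    intro h
    apply hw1
    exact h.iso (stabilizerEquivStabilizer (G := H) (a := w) (b := w1) (g := k * g⁻¹) hww.symm)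
  obtain ⟨hcen', hNs, -⟩ := S.kcrit_eq hK hf hbad
  obtain ⟨s0, hs0, u0, hu0⟩ := S.exists_t hE hh hw hwp
  -- the map on sinks
  have hR : ∀ x ∈ S.K.PS, ∃ b : S.KV w, b ∈ (S.KW w).PS ∧ ∃ g : H, b.1 = Sum.inl (g • x) := by
    rintro x ⟨hx1, hx2⟩
    obtain ⟨y, c, hcJ, hcW⟩ := hs x hx1 hx2
    obtain ⟨g, i, j, hgi, -⟩ := id hcW
    obtain ⟨k, hk⟩ := hcen' i
    have hcw : (k * g⁻¹) • c = w := by rw [mul_smul, ← hgi, inv_smul_smul, hk]
    have hJ := S.J_smul (k * g⁻¹) x c hcJ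
    have hW := hcW.smul (k * g⁻¹)
    rw [hcw] at hJ hW
    have hat := atv_J hJ
    have hE2 := hW.inP.E
    have hTx : w ∈ S.TV ((k * g⁻¹) • x) := S.J_TV _ _ hJ
    have hTy : w ∈ S.TV ((k * g⁻¹) • y) := S.TE_TV _ _ _ hE2.symm (S.TE_symm _ _ _ hE2 hW.TE)
    refine ⟨S.kat w _ hTx, ⟨?_, (S.kInP hW hTx hTy).vp⟩, k * g⁻¹, hat⟩
    intro a ha
    have h10 : S.KA w (S.atv w ((k * g⁻¹) • x)) a.1 := ha
    rw [hat] at h10
    have hns : ∀ b, ¬ S.K.ar ((k * g⁻¹) • x) b := by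
      intro b hb
      have := S.K.ar_smul (k * g⁻¹)⁻¹ _ _ hb
      rw [inv_smul_smul] at this
      exact hx1 _ this
    generalize hz : (k * g⁻¹) • x = z at h10 hns
    generalize a.1 = t at h10
    cases h10 with
    | rr _ a h1 h2 => exact hns _ h1
    | rt _ a u h1 h2 h3 => exact hns _ h1
    | cr _ u h1 h2 h3 h4 =>
      obtain ⟨b, hb, -⟩ := S.pole z w u h1 h2 h3 h4.2.2
      exact hns b hb
  have hlt : S.K.Ns < (S.KW w).Ns := by
    have hf2 : ∀ x : V, ∃ b : S.KV w, x ∈ S.K.PS → b ∈ (S.KW w).PS ∧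
        ∃ g : H, b.1 = Sum.inl (g • x) := by
      intro x
      by_cases hx : x ∈ S.K.PS
      · obtain ⟨b, hb⟩ := hR x hx
        exact ⟨b, fun _ => hb⟩
      · exact ⟨s0, fun h => absurd h hx⟩
    choose f hf3 using hf2
    refine Pool.Agent.SAF.oc_lt_of_inj (H' := ↥(stabilizer H w)) (S.KW w).PS_fin f
      (fun a ha => (hf3 a ha).1) ?_ hs0 ?_
    · rintro a ha b hb ⟨h, e⟩
      obtain ⟨-, g1, e1⟩ := hf3 a ha
      obtain ⟨-, g2, e2⟩ := hf3 b hb
      have e3 := congrArg (fun t : S.KV w => t.1) e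
      change (h : H) • (f a).1 = (f b).1 at e3
      rw [e1, e2] at e3
      have e4 : (h : H) • g1 • a = g2 • b := Sum.inl_injective e3
      refine ⟨g2⁻¹ * ((h : H) * g1), ?_⟩
      rw [mul_smul, mul_smul, e4, inv_smul_smul]
    · intro a ha h e
      obtain ⟨-, g1, e1⟩ := hf3 a ha
      have e3 := congrArg (fun t : S.KV w => t.1) e
      change (h : H) • (f a).1 = s0.1 at e3
      rw [e1, hu0] at e3
      cases e3
  exact absurd hNs (not_le.2 hlt)

theorem false_of_seen' {M M' : ℕ} (hK : KCrit M M' S.K)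
    (hJ : ∀ x, S.K.Sink x → Finite ↥(stabilizer H x) → ∃ c, S.J x = {c})
    (hseen : ∀ x, S.K.Sink x → ∃ (h : H) (i : S.K.I) (k : Fin 5),
      x = h • S.K.pt i k ∧ h • S.c i ∈ S.J x)
    (hfix : ∀ w : X, ∃ h : H, h • w ≠ w) : False := by
  have hs : ∀ x, S.K.Sink x → S.K.VP x → ∃ y, ∃ c ∈ S.J x, S.W x y c := by
    intro x hx _
    obtain ⟨h, i, k, e, hc⟩ := hseen x hx
    exact ⟨h • S.K.pt i (k + 1), h • S.c i, hc, h, i, k, rfl, Or.inl ⟨e, rfl⟩⟩
  apply S.not_all_seen' hK hfix hs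
  rintro x ⟨h1, h2, h3⟩
  obtain ⟨y, c, h4, h5⟩ := hs x h1 h2
  obtain ⟨c', hc'⟩ := hJ x h1 h3
  refine ⟨y, c, ?_, h5⟩
  rw [hc'] at h4
  have h6 : c = c' := h4
  rw [h6]
  exact hc'

end TS

end Pool.Agent.BT
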