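import Pool.Agent.BTK.KCrit
import Pool.Agent.BT.POpt
import Pool.Agent.BT.SAC

/-!
# Pentagon complexes: a minimal counterexample exists (bounded kernels)
-/

namespace Pool.Agent.BT

open MulAction
open Pool.Agent.SAF (InC orbs FinOrb oc Decomp SAn SA FinOrb_iff)

/-- every member has a clean block -/
theorem kred {M M' n v : ℕ} (hV : KMinV M n v) {H V : Type} [Group H] [MulAction H V] (K : PX H V)
    (hB : KBd M H) (hbad : ¬ SA H) (hA : K.A = n) (hv : K.Vf = v) (hs : K.SB M') :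
    ∃ (S : Type) (_ : Group S) (V' : Type) (_ : MulAction S V') (L : PX S V'), KBd M S ∧
      ¬ SA S ∧ L.Clean ∧ L.AllP ∧ L.LinkC ∧ (∀ x, L.VP x) ∧ L.A = n ∧ L.Vf = v ∧ L.SB M' ∧
      L.hg.bb ≤ K.hg.bb ∧ (K.hg.bb ≤ L.hg.bb → K.Ew ≤ L.Ew ∧ K.Ns ≤ L.Ns) := by
  have hSA : ∀ (G : Type) [Group G], InC G → SA G := fun _ _ h => SA_of_InC h
  obtain ⟨V', _, K', f, r, hcl⟩ := exists_clean K
  have hAM : K.AMin := fun V' _ K' => by rw [hA]; exact hV.1 _ _ K' hB hbad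
  have p1 : K'.A = K.A := le_antisymm r.card_le (hAM _ _)
  obtain ⟨w1, -, w3⟩ := r.vf p1.ge
  have p2 : K'.Vf = K.Vf := le_antisymm (by rw [hv]; exact hV.2 _ _ K' hB hbad (p1.trans hA)) w1
  have p3 : K'.SB M' := w3 p2.le M' hs
  obtain ⟨x0, y0, h0, hbad'⟩ := PB.exists_bad_class hcl hSA hbad
  have hB' : KBd M ↥(stabilizer H (PB.mk K' x0 y0)) := hB.sub _
  have q1 : K'.A ≤ (PB.blk hcl x0 y0 h0).A := by
    rw [p1, hA]
    exact hV.1 _ _ _ hB' hbad'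
  have q1' : (PB.blk hcl x0 y0 h0).A = n := by
    rw [← hA, ← p1]; exact le_antisymm PB.blk_A_le q1
  have hAM' : (PB.blk hcl x0 y0 h0).AMin := by
    intro V' _ L'
    rw [q1']
    exact hV.1 _ _ L' hB' hbad'
  obtain ⟨u1, u2⟩ := PB.blk_vf q1
  have q2 : (PB.blk hcl x0 y0 h0).Vf ≤ K'.Vf := by
    rw [p2, hv]
    exact hV.2 _ _ _ hB' hbad' q1'
  refine ⟨_, _, _, _, PB.blk hcl x0 y0 h0, hB', hbad', PB.blk_clean hAM' hSA hbad',
    PB.blk_allP hSA hbad', PB.blk_link, ?_, q1', ?_, u2 q2 M' p3, PB.blk_bb.trans r.bb.1, ?_⟩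
  · rintro ⟨x, y, hE, hm⟩
    have hE' : (PB.blk hcl x0 y0 h0).E ⟨x, y, hE, hm⟩ ⟨y, PB.edge_r hE hm⟩ := PB.blk_E.2 ⟨hE, hm⟩
    exact (PB.blk_allP hSA hbad' _ _ hE').vp
  · rw [← hv, ← p2]
    exact le_antisymm q2 u1
  · intro hle
    have h1 : K.hg.bb ≤ K'.hg.bb := hle.trans PB.blk_bb
    obtain ⟨e1, e2⟩ := r.pot_le hAM h1
    exact ⟨e1.trans (PB.blk_Ew q1).ge, e2.trans (PB.blk_Ns q1)⟩

theorem PX.stab_bound {M M' n : ℕ} {H V : Type} [Group H] [MulAction H V] (K : PX H V)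
    (hB : KBd M H) (hv : ∀ x, K.VP x) (hA : K.A = n) (hs : K.SB M') (x : V)
    (hf : Finite ↥(stabilizer H x)) :
    Nat.card ↥(stabilizer H x) ≤ 2 ^ (5 * n) * max M M' := by
  refine (K.card_stab_le hB (fun v h1 h2 => hs v h1 (hv v) h2) x hf).trans
    (Nat.mul_le_mul_right _ ?_)
  apply Nat.pow_le_pow_right (by norm_num)
  rw [← hA]
  exact K.oc_le_of_VP hv

theorem PX.bb_int' {N : ℕ} {H V : Type} [Group H] [MulAction H V] (K : PX H V)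
    (hN : ∀ x : V, Finite ↥(stabilizer H x) → Nat.card ↥(stabilizer H x) ≤ N) :
    ∃ k : ℤ, ((N.factorial : ℕ) : ℚ) * K.hg.bb = k := by
  rw [K.bb_eq]
  obtain ⟨k1, h1⟩ := mass_int' (s := K.O2) (SAF.FinOrb.mono (Set.subset_univ _) K.fin)
    (fun x _ => hN x)
  obtain ⟨k2, h2⟩ := mass_int' (s := K.SK) (SAF.FinOrb.mono (Set.subset_univ _) K.fin)
    (fun x _ => hN x)
  refine ⟨k1 - k2, ?_⟩
  push_cast
  rw [← h1, ← h2]; ring

theorem PX.Ew_int' {N : ℕ} {H V : Type} [Group H] [MulAction H V] (K : PX H V) (hc : K.Clean)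
    (hN : ∀ x : V, Finite ↥(stabilizer H x) → Nat.card ↥(stabilizer H x) ≤ N) :
    ∃ k : ℤ, ((N.factorial : ℕ) : ℚ) * K.Ew = k := by
  apply mass_int' K.PA_fin
  rintro ⟨x, y⟩ ⟨h1, -⟩ hf
  obtain ⟨b, hb, hne⟩ := hc.out x y h1
  have p : K.Pol x y b := ⟨h1, hb, hne.symm⟩
  have h2 := hN x (p.finite_st hf)
  refine le_trans ?_ h2
  have := p.finite_st hf
  apply Nat.card_le_card_of_injective (fun s : ↥(stabilizer H (x, y)) =>
    (⟨s.1, congrArg Prod.fst s.2⟩ : ↥(stabilizer H x)))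
  intro s s' e
  exact Subtype.ext (congrArg (fun z : ↥(stabilizer H x) => z.1) e)

/-- A MINIMAL COUNTEREXAMPLE EXISTS (bounded kernels) -/
theorem exists_kcrit (G : Type) [Group G] [Group.IsFinitelyPresented G] {M : ℕ} (hM : KBd M G)
    (hb : ¬ SA G) : ∃ (M' : ℕ) (H : Type) (_ : Group H) (V : Type) (_ : MulAction H V)
      (K : PX H V), KCrit M M' K := by
  classical
  obtain ⟨V0, _, ⟨K0⟩⟩ := exists_PX G
  -- the number of pentagons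
  have e1 : ∃ n, ∃ (H : Type) (_ : Group H) (V : Type) (_ : MulAction H V) (K : PX H V),
      KBd M H ∧ ¬ SA H ∧ K.A = n := ⟨_, G, _, V0, _, K0, hM, hb, rfl⟩
  set n := Nat.find e1 with hn
  obtain ⟨H1, g1, V1, a1, K1, b1, c1, d1⟩ := Nat.find_spec e1
  have m1 : KMinA M n := by
    intro H _ V _ K h1 h2
    exact Nat.find_min' e1 ⟨H, _, V, _, K, h1, h2, rfl⟩
  -- the number of finite sinks
  have e2 : ∃ k, ∃ (H : Type) (_ : Group H) (V : Type) (_ : MulAction H V) (K : PX H V),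
      KBd M H ∧ ¬ SA H ∧ K.A = n ∧ 5 * n - K.Vf = k :=
    ⟨_, H1, g1, V1, a1, K1, b1, c1, d1, rfl⟩
  obtain ⟨H2, g2, V2, a2, K2, b2, c2, d2, f2⟩ := Nat.find_spec e2
  have m2 : KMinV M n K2.Vf := by
    refine ⟨m1, ?_⟩
    intro H _ V _ K h1 h2 h3
    have h7 := Nat.find_min' e2 ⟨H, _, V, _, K, h1, h2, h3, rfl⟩
    rw [← f2] at h7
    have h8 := K.Vf_le_Ns.trans K.Ns_le
    have h9 := K2.Vf_le_Ns.trans K2.Ns_le
    rw [h3] at h8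
    rw [d2] at h9
    omega
  set v := K2.Vf with hv
  obtain ⟨M'', hM''⟩ := K2.exists_SB
  set M' := max M M'' with hM'
  have sb2 : K2.SB M' := hM''.mono (le_max_right _ _)
  set N := 2 ^ (5 * n) * max M M' with hNdef
  have hF : 0 < N.factorial := N.factorial_pos
  -- `-χ`
  obtain ⟨S3, g3, V3, a3, L3, b3, c3, l3, l4, l5, l6, l7, l8, l9, -, -⟩ :=
    kred m2 K2 b2 c2 d2 rfl sb2
  obtain ⟨b, ⟨H4, g4, V4, a4, K4, b4, c4, k41, k42, k43, k44, k45, k46, k47, k48⟩, m4⟩ :=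
    exists_min_rat
    {b | ∃ (H : Type) (_ : Group H) (V : Type) (_ : MulAction H V) (K : PX H V),
      KBd M H ∧ ¬ SA H ∧ K.Clean ∧ K.AllP ∧ K.LinkC ∧ (∀ x, K.VP x) ∧ K.A = n ∧ K.Vf = v ∧
        K.SB M' ∧ K.hg.bb = b} ⟨_, S3, g3, V3, a3, L3, b3, c3, l3, l4, l5, l6, l7, l8, l9, rfl⟩
    N.factorial hF
    (by
      rintro _ ⟨H, _, V, _, K, h1, h2, h3, h4, h5, h6, h7, h8, h9, rfl⟩
      exact K.bb_int' (K.stab_bound h1 h6 h7 h9)) (-1)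
    (by
      rintro _ ⟨H, _, V, _, K, h1, h2, h3, h4, h5, h6, h7, h8, h9, rfl⟩
      exact K.bb_ge)
  have m4' : KMinB M M' n v b := by
    refine ⟨m2, ?_⟩
    intro H _ V _ K h1 h2 h3 h4 h5
    obtain ⟨S, _, V', _, L, u1, u2, u3, u4, u5, u6, u7, u8, u9, u10, -⟩ := kred m2 K h1 h2 h3 h4 h5
    exact (m4 _ ⟨S, _, V', _, L, u1, u2, u3, u4, u5, u6, u7, u8, u9, rfl⟩).trans u10
  -- the arrows
  obtain ⟨e, ⟨H5, g5, V5, a5, K5, b5, c5, k51, k52, k53, k54, k55, k56, k57, k58, k59⟩, m5⟩ :=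
    exists_max_rat
    {e | ∃ (H : Type) (_ : Group H) (V : Type) (_ : MulAction H V) (K : PX H V),
      KBd M H ∧ ¬ SA H ∧ K.Clean ∧ K.AllP ∧ K.LinkC ∧ (∀ x, K.VP x) ∧ K.A = n ∧ K.Vf = v ∧
        K.SB M' ∧ K.hg.bb = b ∧ K.Ew = e}
    ⟨_, H4, g4, V4, a4, K4, b4, c4, k41, k42, k43, k44, k45, k46, k47, k48, rfl⟩
    N.factorial hF
    (by
      rintro _ ⟨H, _, V, _, K, h1, h2, h3, h4, h5, h6, h7, h8, h9, h10, rfl⟩
      exact K.Ew_int' h3 (K.stab_bound h1 h6 h7 h9)) ((10 * n : ℕ) : ℚ)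
    (by
      rintro _ ⟨H, _, V, _, K, h1, h2, h3, h4, h5, h6, h7, h8, h9, h10, rfl⟩
      rw [← h7]
      exact K.Ew_le)
  have m5' : KMinE M M' n v b e := by
    refine ⟨m4', ?_⟩
    intro H _ V _ K h1 h2 h3 h4 h5 h6
    obtain ⟨S, _, V', _, L, u1, u2, u3, u4, u5, u6, u7, u8, u9, u10, u11⟩ :=
      kred m2 K h1 h2 h3 h4 h5
    have h7 : b ≤ L.hg.bb := m4'.2 _ _ L u1 u2 u7 u8 u9
    have h8 : L.hg.bb = b := le_antisymm (by rw [← h6]; exact u10) h7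
    have h9 := (u11 (by rw [h6]; exact h7)).1
    exact h9.trans (m5 _ ⟨S, _, V', _, L, u1, u2, u3, u4, u5, u6, u7, u8, u9, h8, rfl⟩)
  -- the sinks
  have e6 : ∃ k, ∃ (H : Type) (_ : Group H) (V : Type) (_ : MulAction H V) (K : PX H V),
      KBd M H ∧ ¬ SA H ∧ K.Clean ∧ K.AllP ∧ K.LinkC ∧ (∀ x, K.VP x) ∧ K.A = n ∧ K.Vf = v ∧
        K.SB M' ∧ K.hg.bb = b ∧ K.Ew = e ∧ 5 * n - K.Ns = k :=
    ⟨_, H5, g5, V5, a5, K5, b5, c5, k51, k52, k53, k54, k55, k56, k57, k58, k59, rfl⟩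
  obtain ⟨H6, g6, V6, a6, K6, b6, c6, k61, k62, k63, k64, k65, k66, k67, k68, k69, k60⟩ :=
    Nat.find_spec e6
  refine ⟨M', H6, g6, V6, a6, K6, b6, c6, le_max_left _ _, k61, k62, k63, k67, ?_⟩
  rw [k65, k66, k68, k69]
  refine ⟨m5', ?_⟩
  intro H _ V _ K h1 h2 h3 h4 h5 h6 h7
  obtain ⟨S, _, V', _, L, u1, u2, u3, u4, u5, u6, u7, u8, u9, u10, u11⟩ :=
    kred m2 K h1 h2 h3 h4 h5
  have w1 : b ≤ L.hg.bb := m4'.2 _ _ L u1 u2 u7 u8 u9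
  have w2 : L.hg.bb = b := le_antisymm (by rw [← h6]; exact u10) w1
  obtain ⟨w3, w4⟩ := u11 (by rw [h6]; exact w1)
  have w5 : L.Ew = e := le_antisymm (m5'.2 _ _ L u1 u2 u7 u8 u9 w2) (by rw [← h7]; exact w3)
  have w6 := Nat.find_min' e6 ⟨S, _, V', _, L, u1, u2, u3, u4, u5, u6, u7, u8, u9, w2, w5, rfl⟩
  rw [← k60] at w6
  have w7 := L.Ns_le
  have w8 := K6.Ns_le
  rw [u7] at w7
  rw [k65] at w8
  omega

end Pool.Agent.BT
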