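import Pool.Agent.BT.KF
import Pool.Agent.BTK.KEnd1
import Pool.Agent.BTK.KHat
import Pool.Agent.BTK.KN1
import Pool.Agent.BTK.KOpt

/-!
# BTK: there is no minimal counterexample (bounded kernels)
-/

namespace Pool.Agent.BT

open MulAction
open Pool.Agent.SAF (InC orbs FinOrb oc Decomp SAn SA Conv hull TAct FinOrb_iff exists_equivariant
  exists_decomp)

section

variable {H V : Type} [Group H] [MulAction H V] {K : PX H V}

theorem k_exists_edge (hb : ¬ SA H) (x : V) : ∃ y, K.E x y := by
  by_contra hcon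
  push Not at hcon
  have h1 : ∀ z, Relation.ReflTransGen (fun a b => K.ar a b ∨ K.ar b a) x z → z = x := by
    intro z hz
    induction hz with
    | refl => rfl
    | tail _ e ih =>
      subst ih
      exact absurd e (hcon _)
  have h2 : ∀ h : H, h • x = x := fun h => h1 _ (K.conn x (h • x))
  apply hb
  apply SA_of_InC
  have h3 : stabilizer H x = ⊤ := by
    rw [eq_top_iff]
    intro h _
    exact h2 h
  exact SAF.InC.iso Subgroup.topEquiv (h3 ▸ K.stab x)

/-- an edge with infinite stabiliser has elliptic ends -/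
theorem k_ell_of_heavy {M M' : ℕ} (hK : KCrit M M' K) (D : Decomp H) {x y : V} (e : K.E x y)
    (hi : Infinite ↥(stabilizer H x ⊓ stabilizer H y)) : ¬ hyv D x ∧ ¬ hyv D y := by
  have key : ∀ x y, K.ar x y → Infinite ↥(stabilizer H x ⊓ stabilizer H y) →
      ¬ hyv D x ∧ ¬ hyv D y := by
    intro x y e hi
    obtain ⟨w, hw⟩ := hK.soft_ell D e
    refine ⟨not_hyv_of_fix hw, ?_⟩
    intro hy
    have := finite_of_hyp (tact D) (K.stab y) hy (B := stabilizer H x ⊓ stabilizer H y)
      inf_le_right (w := w) (fun b hb => hw b hb.1)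
    exact not_finite_iff_infinite.2 hi this
  rcases e with e | e
  · exact key x y e hi
  · rw [inf_comm] at hi
    exact (key y x e hi).symm

/-- finite groups are elliptic -/
theorem ell_of_fin (D : Decomp H) {x : V} (hf : Finite ↥(stabilizer H x)) : Ell H D.X x := by
  obtain ⟨d⟩ := D.tree.1.nonempty
  obtain ⟨w, hw⟩ := SAF.fix_of_finite_inv (tact D) {y | ∃ a ∈ stabilizer H x, y = a • d} (by
    apply (Set.finite_range (fun a : ↥(stabilizer H x) => a.1 • d)).subset
    rintro _ ⟨a, ha, rfl⟩
    exact ⟨⟨a, ha⟩, rfl⟩) ⟨d, 1, (stabilizer H x).one_mem, (one_smul _ _).symm⟩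
  refine ⟨w, fun a ha => hw a ?_⟩
  rintro _ ⟨b, hb, rfl⟩
  exact ⟨a * b, (stabilizer H x).mul_mem ha hb, (mul_smul _ _ _).symm⟩

theorem no_kcrit {M M' : ℕ} (hK : KCrit M M' K) : False := by
  obtain ⟨D⟩ := exists_decomp hK.bad
  obtain ⟨D', S, hc, ht, hn, hsk, hbr, -, hsn⟩ := exists_kfirst hK D
  let TT : TS H V D'.X := S.ts hK.clean hc ht hn hsk hbr
  have hKT : KCrit M M' TT.K := hK
  have hs : ∀ x ∈ TT.K.PSf, TT.Sn x := by
    rintro x ⟨h1, h2, h3⟩
    obtain ⟨h, i, k, e, hJ⟩ := hsn x h1 (ell_of_fin D' h3)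
    exact ⟨h • K.pt i (k + 1), h • S.cc i, hJ, h, i, k, rfl, Or.inl ⟨e, rfl⟩⟩
  have light : ∀ x y c c', K.E x y → ¬ Heavy H (x, y) → TT.W x y c → TT.W x y c' → c = c' := by
    intro x y c c' e hl h1 h2
    rcases e with e | e
    · exact TT.light_one' hKT hs e hl h1 h2
    · exact TT.light_one' hKT hs e (fun h3 => hl (TS.heavy_swap h3)) h1.symm h2.symm
  have hell : ∀ x : V, Ell H D'.X x := by
    intro x
    by_contra hcon
    have hx : hyv D' x := by
      intro w
      by_contra h1
      push Not at h1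
      exact hcon ⟨w, h1⟩
    have hl : ∀ y, K.E x y → ¬ Heavy H (x, y) := by
      intro y e hh
      have hi : Infinite ↥(stabilizer H x ⊓ stabilizer H y) := by
        rw [← not_finite_iff_infinite]
        intro hf
        apply hh
        apply finite_of_le _ hf
        intro g hg
        rw [mem_stabilizer_iff] at hg
        exact ⟨congrArg Prod.fst hg, congrArg Prod.snd hg⟩
      exact (k_ell_of_heavy hK D' e hi).1 hx
    obtain ⟨y, e⟩ := k_exists_edge (K := K) hK.bad x
    obtain ⟨c, hcW⟩ := TS.W.of_inP (S := TT) (x := x) (y := y) (hK.allP x y e)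
    have key : ∀ z, Relation.ReflTransGen (fun a b => K.Cor a x b) y z → TT.W x z c := by
      intro z hz
      induction hz with
      | refl => exact hcW
      | tail _ hcor ih =>
        obtain ⟨h, i, j, h1⟩ := hcor
        rename_i a b _
        have ha : TT.W x a (h • TT.c i) := by
          rcases h1 with ⟨e1, e2, e3⟩ | ⟨e1, e2, e3⟩
          · exact ⟨h, i, j, rfl, Or.inr ⟨e1, e2⟩⟩
          · refine ⟨h, i, j + 1, rfl, Or.inl ⟨e2, ?_⟩⟩
            rw [e3]
            show h • K.pt i (j + 2) = h • K.pt i (j + 1 + 1)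
            rw [add_assoc]
            rfl
        have hb : TT.W x b (h • TT.c i) := by
          rcases h1 with ⟨e1, e2, e3⟩ | ⟨e1, e2, e3⟩
          · refine ⟨h, i, j + 1, rfl, Or.inl ⟨e2, ?_⟩⟩
            rw [e3]
            show h • K.pt i (j + 2) = h • K.pt i (j + 1 + 1)
            rw [add_assoc]
            rfl
          · exact ⟨h, i, j, rfl, Or.inr ⟨e1, e2⟩⟩
        have he : K.E x a := ih.inP.E
        have := light x a _ _ he (hl a he) ih ha
        rw [this]
        exact hb
    apply hcon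
    refine ⟨c, ?_⟩
    intro g hg
    have hg' : g • x = x := hg
    have e2 : K.E x (g • y) := by
      have := K.E_smul g e
      rwa [hg'] at this
    have h2 := key (g • y) (hK.link x y (g • y) e e2)
    have h3 := hcW.smul g
    rw [hg'] at h3
    exact light x (g • y) _ _ e2 (hl _ e2) h3 h2
  refine TT.false_of_seen' hKT ?_ ?_ (fun w => D'.nofix w)
  · intro x hx _
    obtain ⟨h, i, k, e, hJ⟩ := hsn x hx (hell x)
    exact ⟨_, hJ⟩
  · intro x hx
    obtain ⟨h, i, k, e, hJ⟩ := hsn x hx (hell x)
    refine ⟨h, i, k, e, ?_⟩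
    show h • S.cc i ∈ S.J x
    rw [hJ]
    rfl

end

/-- THEOREM: finitely presented groups for which the finite subgroups of infinite subgroups in the
class have bounded order are strongly accessible -/
theorem kmain (G : Type) [Group G] [Group.IsFinitelyPresented G] {M : ℕ} (hM : KBd M G) :
    SA G := by
  by_contra hb
  obtain ⟨M', H, iH, V, iV, K, hK⟩ := exists_kcrit G hM hb
  exact no_kcrit hK

end Pool.Agent.BT
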