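import Pool.Agent.BT.PBlock5

/-!
# Pentagon complexes: the number of finite sinks
-/

namespace Pool.Agent.BT

open MulAction
open Pool.Agent.SAF (InC orbs FinOrb oc Decomp SAn SA FinOrb_iff)

namespace PX

variable {H V : Type} [Group H] [MulAction H V]

/-- the finite sinks on pentagons -/
def PSf (K : PX H V) : Set V := {v | K.Sink v ∧ K.VP v ∧ Finite ↥(stabilizer H v)}

/-- number of orbits of finite sinks on pentagons -/
noncomputable def Vf (K : PX H V) : ℕ := oc H K.PSf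

/-- the finite sinks on pentagons have at most `M'` elements -/
def SB (K : PX H V) (M' : ℕ) : Prop :=
  ∀ v, K.Sink v → K.VP v → Finite ↥(stabilizer H v) → Nat.card ↥(stabilizer H v) ≤ M'

theorem PSf_sub (K : PX H V) : K.PSf ⊆ K.PS := fun _ h => ⟨h.1, h.2.1⟩

theorem PSf_fin (K : PX H V) : FinOrb H K.PSf := SAF.FinOrb.mono (Set.subset_univ _) K.fin

theorem PSf_smul (K : PX H V) (g : H) (v : V) (hv : v ∈ K.PSf) : g • v ∈ K.PSf :=
  ⟨(K.PS_smul g v ⟨hv.1, hv.2.1⟩).1, hv.2.1.smul g, finite_stab_smul g hv.2.2⟩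

theorem Vf_le_Ns (K : PX H V) : K.Vf ≤ K.Ns := SAF.oc_mono K.PS_fin K.PSf_sub

/-- a bound for the finite sinks exists -/
theorem exists_SB (K : PX H V) : ∃ M', K.SB M' := by
  obtain ⟨F, hF, hFs, hc⟩ := FinOrb_iff.1 K.PSf_fin
  obtain ⟨B, hB⟩ := (hF.image (fun v => Nat.card ↥(stabilizer H v))).bddAbove
  refine ⟨B, ?_⟩
  intro v h1 h2 h3
  obtain ⟨f, hf, g, rfl⟩ := hc v ⟨h1, h2, h3⟩
  have h4 : Nat.card ↥(stabilizer H (g • f)) = Nat.card ↥(stabilizer H f) := by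
    rw [stabilizer_smul_eq_stabilizer_map_conj]
    exact (Nat.card_congr (Subgroup.equivMapOfInjective _ _ (MulAut.conj g).injective).toEquiv).symm
  rw [h4]
  exact hB ⟨f, hf, rfl⟩

theorem SB.mono {K : PX H V} {M' M'' : ℕ} (h : K.SB M') (hM : M' ≤ M'') : K.SB M'' :=
  fun v h1 h2 h3 => (h v h1 h2 h3).trans hM

end PX

section

variable {H V V' : Type} [Group H] [MulAction H V] [MulAction H V']

open PX

theorem Red.stab_sink {K : PX H V} {K' : PX H V'} {f : V → V'} (r : Red K K' f) {v : V}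
    (hv : K.Sink v) : stabilizer H (f v) = stabilizer H v := by
  ext h
  rw [mem_stabilizer_iff, mem_stabilizer_iff, ← r.equi]
  constructor
  · intro e
    exact r.sinj _ _ (K.SK_smul h v hv) hv e
  · intro e
    rw [e]

/-- reductions with the same number of pentagons: finite sinks -/
theorem Red.vf {K : PX H V} {K' : PX H V'} {f : V → V'} (r : Red K K' f) (hA : K.A ≤ K'.A) :
    K.Vf ≤ K'.Vf ∧ K.Ns ≤ K'.Ns ∧ (K'.Vf ≤ K.Vf → ∀ M', K.SB M' → K'.SB M') := by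
  obtain ⟨ι, h1, h2, h3⟩ := r.pent
  have := K.finI
  have := K'.finI
  have hι := (h1.bijective_of_nat_card_le hA).2
  have hvp : ∀ x, K.VP x → K'.VP (f x) := by
    rintro x ⟨g, i, j, rfl⟩
    obtain ⟨i', rfl⟩ := hι i
    exact ⟨g, i', j, by rw [h2, r.equi]⟩
  have hmem : ∀ v ∈ K.PSf, f v ∈ K'.PSf := by
    rintro v ⟨a1, a2, a3⟩
    refine ⟨r.sink v a1, hvp v a2, ?_⟩
    rw [r.stab_sink a1]
    exact a3
  refine ⟨?_, ?_, ?_⟩
  · apply SAF.oc_le_of_inj K'.PSf_fin f hmem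
    rintro v hv w hw ⟨h, e⟩
    refine ⟨h, ?_⟩
    rw [← r.equi] at e
    exact r.sinj _ _ (K.SK_smul h v hv.1) hw.1 e
  · apply SAF.oc_le_of_inj K'.PS_fin f
    · rintro v ⟨hv, hv'⟩
      exact ⟨r.sink v hv, hvp v hv'⟩
    · rintro v ⟨hv, hv'⟩ w ⟨hw, hw'⟩ ⟨h, e⟩
      refine ⟨h, ?_⟩
      rw [← r.equi] at e
      exact r.sinj _ _ (K.SK_smul h v hv) hw e
  · intro hle M' hM c c1 c2 c3
    by_cases hex : ∃ v ∈ K.PSf, ∃ h : H, h • f v = c
    · obtain ⟨v, hv, h, rfl⟩ := hex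
      have h4 : Nat.card ↥(stabilizer H (h • f v)) = Nat.card ↥(stabilizer H (f v)) := by
        rw [stabilizer_smul_eq_stabilizer_map_conj]
        exact (Nat.card_congr
          (Subgroup.equivMapOfInjective _ _ (MulAut.conj h).injective).toEquiv).symm
      rw [h4, r.stab_sink hv.1]
      exact hM v hv.1 hv.2.1 hv.2.2
    · exfalso
      push Not at hex
      have hlt : K.Vf < K'.Vf := by
        apply SAF.oc_lt_of_inj K'.PSf_fin f hmem ?_ (b0 := c) ⟨c1, c2, c3⟩ hex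
        rintro v hv w hw ⟨h, e⟩
        refine ⟨h, ?_⟩
        rw [← r.equi] at e
        exact r.sinj _ _ (K.SK_smul h v hv.1) hw.1 e
      omega

end

namespace PB

variable {H V : Type} [Group H] [MulAction H V] {K : PX H V}
  {hcl : K.Clean} {x0 y0 : V} {h0 : K.E x0 y0}

/-- finite sinks of the block -/
theorem blk_vf (hA : K.A ≤ (blk hcl x0 y0 h0).A) : K.Vf ≤ (blk hcl x0 y0 h0).Vf ∧
    ((blk hcl x0 y0 h0).Vf ≤ K.Vf → ∀ M', K.SB M' → (blk hcl x0 y0 h0).SB M') := by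
  set R : Set (BV K (mk K x0 y0)) := {v | v ∈ (blk hcl x0 y0 h0).PSf ∧ v.1 ∈ K.PSf} with hR
  have hRf : FinOrb (stabilizer H (mk K x0 y0)) R :=
    SAF.FinOrb.mono (fun v h => h.1) (blk hcl x0 y0 h0).PSf_fin
  have hstab : ∀ v : BV K (mk K x0 y0), Finite ↥(stabilizer H v.1) →
      Finite ↥(stabilizer (stabilizer H (mk K x0 y0)) v) ∧
      Nat.card ↥(stabilizer (stabilizer H (mk K x0 y0)) v) ≤ Nat.card ↥(stabilizer H v.1) := by
    intro v hf
    have hinj : Function.Injective (fun s : ↥(stabilizer (stabilizer H (mk K x0 y0)) v) =>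
        (⟨s.1.1, congrArg Subtype.val s.2⟩ : ↥(stabilizer H v.1))) := by
      intro s s' e
      have e' : s.1.1 = s'.1.1 := congrArg (fun z : ↥(stabilizer H v.1) => z.1) e
      exact Subtype.ext (Subtype.ext e')
    exact ⟨Finite.of_injective _ hinj, Nat.card_le_card_of_injective _ hinj⟩
  have hle : K.Vf ≤ oc (stabilizer H (mk K x0 y0)) R := by
    apply SAF.oc_le_of_surj hRf (fun v : BV K (mk K x0 y0) => v.1)
    · rintro v ⟨h1, ⟨g, i, j, rfl⟩, h3⟩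
      obtain ⟨i', rfl⟩ := blk_I_surj hA i
      have h5 : (g * (i'.g)⁻¹) • ((blk hcl x0 y0 h0).pt i' j).1 = g • K.pt i'.1 j := by
        show (g * (i'.g)⁻¹) • (i'.g • K.pt i'.1 j) = _
        rw [← mul_smul, inv_mul_cancel_right]
      have h6 : ((blk hcl x0 y0 h0).pt i' j).1 ∈ K.PSf := by
        have h7 := K.PSf_smul (g * (i'.g)⁻¹)⁻¹ _ (⟨h1, ⟨g, i'.1, j, rfl⟩, h3⟩ :
          g • K.pt i'.1 j ∈ K.PSf)
        rw [← h5, inv_smul_smul] at h7
        exact h7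
      refine ⟨(blk hcl x0 y0 h0).pt i' j, ⟨⟨?_, PX.VP_pt _ _, (hstab _ h6.2.2).1⟩, h6⟩,
        g * (i'.g)⁻¹, h5⟩
      rintro a ⟨h2, -⟩
      exact h6.1 _ h2
    · rintro a _ b _ ⟨s, e⟩
      exact ⟨s.1, congrArg Subtype.val e⟩
  have hle2 : oc (stabilizer H (mk K x0 y0)) R ≤ (blk hcl x0 y0 h0).Vf :=
    SAF.oc_mono (blk hcl x0 y0 h0).PSf_fin (fun v h => h.1)
  refine ⟨hle.trans hle2, ?_⟩
  intro hge M' hM v v1 v2 v3
  by_cases hv : v.1 ∈ K.PSf
  · exact (hstab v hv.2.2).2.trans (hM _ hv.1 hv.2.1 hv.2.2)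
  · exfalso
    have hlt : oc (stabilizer H (mk K x0 y0)) R < (blk hcl x0 y0 h0).Vf := by
      apply SAF.oc_lt_of_inj (blk hcl x0 y0 h0).PSf_fin (fun v => v) (fun v h => h.1) ?_
        (b0 := v) ⟨v1, v2, v3⟩
      · rintro a ⟨-, ha⟩ s rfl
        exact hv (K.PSf_smul s.1 _ ha)
      · rintro a _ b _ ⟨s, e⟩
        exact ⟨s, e⟩
    omega

end PB

end Pool.Agent.BT
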